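import Pool.Agent.Helper83.RK.Defs
import Pool.Agent.Helper94.HS3.Haar3

/-!
# Null images of the fibres under averaged bump functions
-/

set_option autoImplicit false
set_option linter.unusedSectionVars false
set_option linter.unusedVariables false

open Set MeasureTheory Metric Filter Topology
open scoped NNReal ENNReal

namespace Pool.Agent.Helper83.RK

open Pool.Agent.Helper3.HS

namespace h34

/-- The bump function. -/
noncomputable def bmp {E : Type*} [PseudoMetricSpace E] (q : E × ℝ) (u : E) : ℝ :=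
  max 0 (q.2 - dist u q.1)

theorem bmp_cont {E : Type*} [PseudoMetricSpace E] (q : E × ℝ) : Continuous (bmp q) := by
  unfold bmp
  fun_prop

theorem bmp_nonneg {E : Type*} [PseudoMetricSpace E] (q : E × ℝ) (u : E) : 0 ≤ bmp q u :=
  le_max_left _ _

theorem bmp_lip {E : Type*} [PseudoMetricSpace E] (q : E × ℝ) (u v : E) :
    edist (bmp q u) (bmp q v) ≤ edist u v := by
  rw [edist_dist, edist_dist]
  apply ENNReal.ofReal_le_ofReal
  rw [Real.dist_eq]
  unfold bmp
  have h1 := abs_max_sub_max_le_abs (q.2 - dist u q.1) (q.2 - dist v q.1) 0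
  rw [max_comm 0, max_comm 0]
  refine h1.trans ?_
  have h2 : q.2 - dist u q.1 - (q.2 - dist v q.1) = dist v q.1 - dist u q.1 := by ring
  rw [h2]
  have h3 := abs_dist_sub_le v u q.1
  rwa [dist_comm v u] at h3

theorem bmp_pos {E : Type*} [PseudoMetricSpace E] {q : E × ℝ} {u : E} :
    0 < bmp q u ↔ dist u q.1 < q.2 := by
  unfold bmp
  rw [lt_max_iff]
  simp

end h34

open h34

section null
variable {d m p : ℕ} [Fact p.Prime] [MeasurableSpace ℤ_[p]] [BorelSpace ℤ_[p]]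
  {ν : Measure (Gp (m + 1) p)} [IsProbabilityMeasure ν] [ν.IsAddHaarMeasure]

theorem PD.avg_eq (P : PD (d + 1) (m + 1) p) (q : (Fin (d + 1) → ℝ) × ℝ) (x : Fin (d + 1) → ℝ) :
    P.avg ν q x = ∫ a, bmp q (P.g a x) ∂ν := rfl

theorem PD.cont_a (P : PD (d + 1) (m + 1) p) {x : Fin (d + 1) → ℝ} (hx : x ∈ P.U) :
    Continuous (fun a => P.g a x) := by
  have h1 : Continuous (fun a : Gp (m + 1) p => (a, x)) := by fun_prop
  exact P.hgj.comp_continuous h1 (fun a => ⟨mem_univ _, hx⟩)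

theorem PD.avg_continuousOn (P : PD (d + 1) (m + 1) p) (q : (Fin (d + 1) → ℝ) × ℝ) :
    ContinuousOn (P.avg ν q) P.U := by
  rw [continuousOn_iff_continuous_domRestrict]
  have hlc : LocallyCompactSpace P.U := P.hU.locallyCompactSpace
  have h := continuous_parametric_integral_of_continuous (μ := ν) (s := (univ : Set (Gp (m + 1) p)))
    (f := fun (x : P.U) (a : Gp (m + 1) p) => bmp q (P.g a x)) (by
      apply (bmp_cont q).comp
      have h1 : Continuous (fun z : P.U × Gp (m + 1) p => (z.2, (z.1 : Fin (d + 1) → ℝ))) := by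
        fun_prop
      exact P.hgj.comp_continuous h1 (fun z => ⟨mem_univ _, z.1.2⟩)) isCompact_univ
  simp only [Measure.restrict_univ] at h
  exact h

theorem PD.avg_inv (P : PD (d + 1) (m + 1) p) (q : (Fin (d + 1) → ℝ) × ℝ) (b : Gp (m + 1) p) :
    ∀ x ∈ P.U, P.avg ν q (P.g b x) = P.avg ν q x := by
  intro x hx
  rw [PD.avg_eq, PD.avg_eq]
  have h1 : ∀ a, bmp q (P.g a (P.g b x)) = (fun c => bmp q (P.g c x)) (a + b) := by
    intro a
    simp only
    rw [P.hgadd a b x hx]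
  simp_rw [h1]
  exact integral_add_right_eq_self (fun c => bmp q (P.g c x)) b

theorem PD.avg_small (P : PD (d + 1) (m + 1) p) {Q : Set ((Fin (d + 1) → ℝ) × ℝ)} (hQ : Dense Q)
    {x : Fin (d + 1) → ℝ} (hx : x ∈ P.U) {η : ℝ} (hη : 0 < η) :
    ∃ q ∈ Q, 0 < P.avg ν q x ∧ ∀ z ∈ P.U, 0 < P.avg ν q z → ∃ a, dist (P.g a z) x < η := by
  obtain ⟨q, hqQ, hq⟩ := hQ.exists_dist_lt (x, η / 2) (by positivity : 0 < η / 8)
  rw [Prod.dist_eq, max_lt_iff] at hq
  obtain ⟨hq1, hq2⟩ := hq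
  simp only at hq1 hq2
  rw [Real.dist_eq, abs_lt] at hq2
  refine ⟨q, hqQ, ?_, ?_⟩
  · rw [PD.avg_eq]
    have hc : Continuous (fun a => bmp q (P.g a x)) := (bmp_cont q).comp (P.cont_a hx)
    apply hc.integral_pos_of_hasCompactSupport_nonneg_nonzero (HasCompactSupport.of_compactSpace _)
      (fun a => bmp_nonneg q _) (x := 0)
    rw [P.hg0 x hx]
    apply ne_of_gt
    rw [bmp_pos]
    linarith
  · intro z hz hpos
    by_contra hcon
    push Not at hcon
    have h1 : ∀ a, bmp q (P.g a z) = 0 := by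
      intro a
      by_contra hne
      have h2 : 0 < bmp q (P.g a z) := lt_of_le_of_ne (bmp_nonneg q _) (Ne.symm hne)
      rw [bmp_pos] at h2
      have h3 := hcon a
      have h4 := dist_triangle (P.g a z) q.1 x
      rw [dist_comm q.1 x] at h4
      linarith
    rw [PD.avg_eq] at hpos
    simp_rw [h1] at hpos
    simp at hpos

theorem GV_avg_int' {k m' : ℕ} (hk : 0 < k)
    {Γ : Gp (m + 1) p → (Fin (d + 1) → ℝ) → (Fin m' → ℝ)}
    (hΓ : Continuous (fun q : Gp (m + 1) p × (Fin (d + 1) → ℝ) => Γ q.1 q.2))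
    (u₀ : Fin (d + 1) → ℝ) (r : ℝ) (N : ℕ) :
    GV k (fun x => ∫ a, Γ a x ∂ν) u₀ r N ≤ ∫⁻ a, GV k (Γ a) u₀ r N ∂ν := by
  obtain ⟨e, rfl⟩ := Nat.exists_eq_succ_of_ne_zero hk.ne'
  exact GV_avg_int hΓ u₀ r N

/-- Fubini for null sets in a space of coordinates. -/
theorem ae_slice_null {k l : ℕ} {S : Set (Fin (k + l) → ℝ)} (hS : volume S = 0) :
    ∀ᵐ y ∂(volume : Measure (Fin k → ℝ)),
      volume {u : Fin l → ℝ | Fin.append y u ∈ S} = 0 := by
  -- the measure preserving map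
  have h1 : MeasurePreserving (MeasurableEquiv.sumPiEquivProdPi (fun _ : Fin k ⊕ Fin l => ℝ))
      volume volume := volume_measurePreserving_sumPiEquivProdPi _
  have h2 : MeasurePreserving (MeasurableEquiv.piCongrLeft (fun _ : Fin (k + l) => ℝ)
      (finSumFinEquiv : Fin k ⊕ Fin l ≃ Fin (k + l))) volume volume :=
    volume_measurePreserving_piCongrLeft _ _
  have h3 := h2.comp (h1.symm _)
  set φ := (MeasurableEquiv.sumPiEquivProdPi (fun _ : Fin k ⊕ Fin l => ℝ)).symm.trans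
    (MeasurableEquiv.piCongrLeft (fun _ : Fin (k + l) => ℝ)
      (finSumFinEquiv : Fin k ⊕ Fin l ≃ Fin (k + l))) with hφ
  have hφm : MeasurePreserving φ volume volume := h3
  have happ : ∀ y u, φ (y, u) = Fin.append y u := by
    intro y u
    funext j
    refine Fin.addCases (fun a => ?_) (fun b => ?_) j
    · rw [Fin.append_left]
      have := Equiv.piCongrLeft_apply_apply (fun _ : Fin (k + l) => ℝ)
        (finSumFinEquiv : Fin k ⊕ Fin l ≃ Fin (k + l))
        ((MeasurableEquiv.sumPiEquivProdPi (fun _ : Fin k ⊕ Fin l => ℝ)).symm (y, u)) (Sum.inl a)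
      rw [finSumFinEquiv_apply_left] at this
      exact this
    · rw [Fin.append_right]
      have := Equiv.piCongrLeft_apply_apply (fun _ : Fin (k + l) => ℝ)
        (finSumFinEquiv : Fin k ⊕ Fin l ≃ Fin (k + l))
        ((MeasurableEquiv.sumPiEquivProdPi (fun _ : Fin k ⊕ Fin l => ℝ)).symm (y, u)) (Sum.inr b)
      rw [finSumFinEquiv_apply_right] at this
      exact this
  have h4 : volume (φ ⁻¹' S) = 0 := by
    rw [hφm.measure_preimage_equiv]
    exact hS
  have h5 : ∀ᵐ z ∂((volume : Measure (Fin k → ℝ)).prod (volume : Measure (Fin l → ℝ))),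
      z ∉ φ ⁻¹' S := measure_eq_zero_iff_ae_notMem.mp h4
  have h6 := Measure.ae_ae_of_ae_prod h5
  filter_upwards [h6] with y hy
  have h7 : volume {u : Fin l → ℝ | (y, u) ∈ φ ⁻¹' S} = 0 :=
    measure_eq_zero_iff_ae_notMem.mpr hy
  refine measure_mono_null (fun u hu => ?_) h7
  show φ (y, u) ∈ S
  rw [happ]
  exact hu

/-- null images of the fibres in almost all slices, for almost all `y` -/
theorem PD.null_ae (P : PD (d + 1) (m + 1) p) {c : Fin (d + 1) → ℝ} {σ : ℝ} (hσ : 0 < σ)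
    (hUc : P.U ⊆ closedBall c σ) {F : (Fin (d + 1) → ℝ) → (Fin (d + 1) → ℝ)} (hF : Continuous F)
    {Γ : Gp (m + 1) p → (Fin (d + 1) → ℝ) → (Fin (d + 1) → ℝ)}
    (hΓ : Continuous (fun q : Gp (m + 1) p × (Fin (d + 1) → ℝ) => Γ q.1 q.2))
    (hΓP : ∀ a, ∀ x ∈ P.U, Γ a x = P.g a x) (hFΓ : ∀ x, F x = ∫ a, Γ a x ∂ν)
    (hGV : ∀ η : ℝ≥0∞, 0 < η → ∃ N : ℕ, 0 < N ∧ ∫⁻ a, GV (d + 1 + m) (Γ a) c σ N ∂ν ≤ η)
    {Q : Set ((Fin (d + 1) → ℝ) × ℝ)} (hQ : Q.Countable) :
    ∃ T : Fin (d + 1) → Set ℝ, (∀ i, Dense (T i)) ∧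
      ∀ᵐ y ∂(volume : Measure (Fin (d + 1) → ℝ)), ∀ i, ∀ t ∈ T i, ∀ J : Fin m → Q,
        volume ((fun x => fun k => P.avg ν (J k) x) '' {x | x ∈ P.U ∧ F x = y ∧ x i = t}) = 0 := by
  classical
  have hQc : Countable Q := hQ.to_subtype
  -- the enlarged maps
  set Γ' : (Fin m → Q) → Gp (m + 1) p → (Fin (d + 1) → ℝ) → (Fin (d + 1 + m) → ℝ) :=
    fun J a x => Fin.append (Γ a x) (fun k => bmp (J k : (Fin (d + 1) → ℝ) × ℝ) (Γ a x)) with hΓ'
  have happc : Continuous (fun z : (Fin (d + 1) → ℝ) × (Fin m → ℝ) => Fin.append z.1 z.2) := by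
    rw [continuous_pi_iff]
    intro j
    refine Fin.addCases (fun a => ?_) (fun b => ?_) j
    · simp_rw [Fin.append_left]
      fun_prop
    · simp_rw [Fin.append_right]
      fun_prop
  have hΓ'c : ∀ J, Continuous (fun q : Gp (m + 1) p × (Fin (d + 1) → ℝ) => Γ' J q.1 q.2) := by
    intro J
    have h1 : Continuous (fun q : Gp (m + 1) p × (Fin (d + 1) → ℝ) =>
        (Γ q.1 q.2, (fun k => bmp (J k : (Fin (d + 1) → ℝ) × ℝ) (Γ q.1 q.2)))) := by
      refine hΓ.prodMk (continuous_pi fun k => (bmp_cont _).comp hΓ)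
    exact happc.comp h1
  have hGV' : ∀ J, ∀ η : ℝ≥0∞, 0 < η → ∃ N : ℕ, 0 < N ∧
      GV (d + 1 + m) (fun x => ∫ a, Γ' J a x ∂ν) c σ N ≤ η := by
    intro J η hη
    obtain ⟨N, hN, h1⟩ := hGV η hη
    refine ⟨N, hN, (GV_avg_int' (by omega) (hΓ'c J) c σ N).trans (le_trans ?_ h1)⟩
    apply lintegral_mono
    intro a
    have h2 := GV_mono (e := d + 1 + m) (f := Γ a) (g := Γ' J a) (u₀ := c) hσ hN (L := 1)
      ENNReal.one_ne_top (by
        intro x _ z _
        rw [one_mul, edist_pi_le_iff]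
        intro j
        refine Fin.addCases (fun i => ?_) (fun k => ?_) j
        · simp only [hΓ', Fin.append_left]
          exact edist_le_pi_edist _ _ i
        · simp only [hΓ', Fin.append_right]
          exact bmp_lip _ _ _)
    rwa [one_pow, one_mul] at h2
  have hG : ∀ J, Continuous (fun x => ∫ a, Γ' J a x ∂ν) := fun J => gavg_continuous (hΓ'c J)
  -- the average of the enlarged map
  have hval : ∀ J, ∀ x ∈ P.U, (∫ a, Γ' J a x ∂ν) = Fin.append (F x) (fun k => P.avg ν (J k) x) := by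
    intro J x hx
    have hint := gavg_integrable (ν := ν) (hΓ'c J) x
    funext j
    have h1 : (∫ a, Γ' J a x ∂ν) j = ∫ a, Γ' J a x j ∂ν :=
      (ContinuousLinearMap.integral_comp_comm (ContinuousLinearMap.proj (R := ℝ)
        (φ := fun _ : Fin (d + 1 + m) => ℝ) j) hint).symm
    rw [h1]
    refine Fin.addCases (fun i => ?_) (fun k => ?_) j
    · simp only [hΓ', Fin.append_left]
      rw [hFΓ]
      exact ContinuousLinearMap.integral_comp_comm (ContinuousLinearMap.proj (R := ℝ)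
        (φ := fun _ : Fin (d + 1) => ℝ) i) (gavg_integrable hΓ x)
    · simp only [hΓ', Fin.append_right]
      rw [PD.avg_eq]
      simp_rw [hΓP _ x hx]
  -- the good slices
  set good : Fin (d + 1) → Set ℝ := fun i => {t | t ∈ Icc (c i - σ) (c i + σ) → ∀ J : Fin m → Q,
    volume ((fun x => ∫ a, Γ' J a x ∂ν) '' ((fun w => slc i t w) '' fullSlice c σ i)) = 0} with hgood
  have hgd : ∀ i, ∀ᵐ t, t ∈ good i := by
    intro i
    have h1 : ∀ᵐ t ∂(volume.restrict (Icc (c i - σ) (c i + σ))), ∀ J : Fin m → Q,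
        volume ((fun x => ∫ a, Γ' J a x ∂ν) '' ((fun w => slc i t w) '' fullSlice c σ i)) = 0 :=
      ae_all_iff.mpr fun J => ae_null_gslice (hG J) hσ (hGV' J) i
    rw [ae_restrict_iff' measurableSet_Icc] at h1
    exact h1
  have hdense : ∀ i, Dense (good i) := fun i => Measure.dense_of_ae (hgd i)
  have hcd : ∀ i, ∃ T ⊆ good i, T.Countable ∧ Dense T := fun i =>
    (hdense i).exists_countable_dense_subset
  choose T hTg hTc hTd using hcd
  refine ⟨T, hTd, ?_⟩
  rw [ae_all_iff]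
  intro i
  rw [ae_ball_iff (hTc i)]
  intro t ht
  rw [ae_all_iff]
  intro J
  by_cases htI : t ∈ Icc (c i - σ) (c i + σ)
  · have h1 := ae_slice_null (hTg i ht htI J)
    filter_upwards [h1] with y hy
    refine measure_mono_null ?_ hy
    rintro _ ⟨x, ⟨hx, hFx, hxt⟩, rfl⟩
    show Fin.append y (fun k => P.avg ν (J k) x) ∈
      (fun x => ∫ a, Γ' J a x ∂ν) '' ((fun w => slc i t w) '' fullSlice c σ i)
    rw [← hFx, ← hval J x hx]
    refine ⟨x, ⟨_, mem_fullSlice_of_mem hσ (hUc hx) i, ?_⟩, rfl⟩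
    simp only
    rw [← hxt]
    exact slc_removeNth i x
  · filter_upwards with y
    have h1 : {x | x ∈ P.U ∧ F x = y ∧ x i = t} = ∅ := by
      ext x
      simp only [mem_ofPred_eq, mem_empty_iff_false, iff_false]
      rintro ⟨hx, -, hxt⟩
      have := mem_closedBall_coord hσ (hUc hx) i
      rw [hxt] at this
      exact htI this
    rw [h1, image_empty, measure_empty]

end null

end Pool.Agent.Helper83.RK
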