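import Pool.Agent.Helper34.RK.Null

/-!
# Null images of the fibres under any number of averaged bump functions

The same statement as in `Null.lean`, with the number `k` of averaged functions free (not tied to
the rank of the group).
-/

set_option autoImplicit false
set_option linter.unusedSectionVars false
set_option linter.unusedVariables false

open Set MeasureTheory Metric Filter Topology
open scoped NNReal ENNReal

namespace Pool.Agent.Helper83.RK

open Pool.Agent.Helper3.HS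

open h34

section null
variable {d m p : ℕ} [Fact p.Prime] [MeasurableSpace ℤ_[p]] [BorelSpace ℤ_[p]]
  {ν : Measure (Gp (m + 1) p)} [IsProbabilityMeasure ν] [ν.IsAddHaarMeasure]

/-- null images of the fibres in almost all slices, for almost all `y` -/
theorem PD.null_aeK {k : ℕ} (P : PD (d + 1) (m + 1) p) {c : Fin (d + 1) → ℝ} {σ : ℝ} (hσ : 0 < σ)
    (hUc : P.U ⊆ closedBall c σ) {F : (Fin (d + 1) → ℝ) → (Fin (d + 1) → ℝ)} (hF : Continuous F)
    {Γ : Gp (m + 1) p → (Fin (d + 1) → ℝ) → (Fin (d + 1) → ℝ)}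
    (hΓ : Continuous (fun q : Gp (m + 1) p × (Fin (d + 1) → ℝ) => Γ q.1 q.2))
    (hΓP : ∀ a, ∀ x ∈ P.U, Γ a x = P.g a x) (hFΓ : ∀ x, F x = ∫ a, Γ a x ∂ν)
    (hGV : ∀ η : ℝ≥0∞, 0 < η → ∃ N : ℕ, 0 < N ∧ ∫⁻ a, GV (d + 1 + k) (Γ a) c σ N ∂ν ≤ η)
    {Q : Set ((Fin (d + 1) → ℝ) × ℝ)} (hQ : Q.Countable) :
    ∃ T : Fin (d + 1) → Set ℝ, (∀ i, Dense (T i)) ∧
      ∀ᵐ y ∂(volume : Measure (Fin (d + 1) → ℝ)), ∀ i, ∀ t ∈ T i, ∀ J : Fin k → Q,
        volume ((fun x => fun l => P.avg ν (J l) x) '' {x | x ∈ P.U ∧ F x = y ∧ x i = t}) = 0 := by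
  classical
  have hQc : Countable Q := hQ.to_subtype
  -- the enlarged maps
  set Γ' : (Fin k → Q) → Gp (m + 1) p → (Fin (d + 1) → ℝ) → (Fin (d + 1 + k) → ℝ) :=
    fun J a x => Fin.append (Γ a x) (fun l => bmp (J l : (Fin (d + 1) → ℝ) × ℝ) (Γ a x)) with hΓ'
  have happc : Continuous (fun z : (Fin (d + 1) → ℝ) × (Fin k → ℝ) => Fin.append z.1 z.2) := by
    rw [continuous_pi_iff]
    intro j
    refine Fin.addCases (fun a => ?_) (fun b => ?_) j
    · simp_rw [Fin.append_left]
      fun_prop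
    · simp_rw [Fin.append_right]
      fun_prop
  have hΓ'c : ∀ J, Continuous (fun q : Gp (m + 1) p × (Fin (d + 1) → ℝ) => Γ' J q.1 q.2) := by
    intro J
    have h1 : Continuous (fun q : Gp (m + 1) p × (Fin (d + 1) → ℝ) =>
        (Γ q.1 q.2, (fun l => bmp (J l : (Fin (d + 1) → ℝ) × ℝ) (Γ q.1 q.2)))) := by
      refine hΓ.prodMk (continuous_pi fun l => (bmp_cont _).comp hΓ)
    exact happc.comp h1
  have hGV' : ∀ J, ∀ η : ℝ≥0∞, 0 < η → ∃ N : ℕ, 0 < N ∧
      GV (d + 1 + k) (fun x => ∫ a, Γ' J a x ∂ν) c σ N ≤ η := by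
    intro J η hη
    obtain ⟨N, hN, h1⟩ := hGV η hη
    refine ⟨N, hN, (GV_avg_int' (by omega) (hΓ'c J) c σ N).trans (le_trans ?_ h1)⟩
    apply lintegral_mono
    intro a
    have h2 := GV_mono (e := d + 1 + k) (f := Γ a) (g := Γ' J a) (u₀ := c) hσ hN (L := 1)
      ENNReal.one_ne_top (by
        intro x _ z _
        rw [one_mul, edist_pi_le_iff]
        intro j
        refine Fin.addCases (fun i => ?_) (fun l => ?_) j
        · simp only [hΓ', Fin.append_left]
          exact edist_le_pi_edist _ _ i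
        · simp only [hΓ', Fin.append_right]
          exact bmp_lip _ _ _)
    rwa [one_pow, one_mul] at h2
  have hG : ∀ J, Continuous (fun x => ∫ a, Γ' J a x ∂ν) := fun J => gavg_continuous (hΓ'c J)
  -- the average of the enlarged map
  have hval : ∀ J, ∀ x ∈ P.U, (∫ a, Γ' J a x ∂ν) = Fin.append (F x) (fun l => P.avg ν (J l) x) := by
    intro J x hx
    have hint := gavg_integrable (ν := ν) (hΓ'c J) x
    funext j
    have h1 : (∫ a, Γ' J a x ∂ν) j = ∫ a, Γ' J a x j ∂ν :=
      (ContinuousLinearMap.integral_comp_comm (ContinuousLinearMap.proj (R := ℝ)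
        (φ := fun _ : Fin (d + 1 + k) => ℝ) j) hint).symm
    rw [h1]
    refine Fin.addCases (fun i => ?_) (fun l => ?_) j
    · simp only [hΓ', Fin.append_left]
      rw [hFΓ]
      exact ContinuousLinearMap.integral_comp_comm (ContinuousLinearMap.proj (R := ℝ)
        (φ := fun _ : Fin (d + 1) => ℝ) i) (gavg_integrable hΓ x)
    · simp only [hΓ', Fin.append_right]
      rw [PD.avg_eq]
      simp_rw [hΓP _ x hx]
  -- the good slices
  set good : Fin (d + 1) → Set ℝ := fun i => {t | t ∈ Icc (c i - σ) (c i + σ) → ∀ J : Fin k → Q,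
    volume ((fun x => ∫ a, Γ' J a x ∂ν) '' ((fun w => slc i t w) '' fullSlice c σ i)) = 0} with hgood
  have hgd : ∀ i, ∀ᵐ t, t ∈ good i := by
    intro i
    have h1 : ∀ᵐ t ∂(volume.restrict (Icc (c i - σ) (c i + σ))), ∀ J : Fin k → Q,
        volume ((fun x => ∫ a, Γ' J a x ∂ν) '' ((fun w => slc i t w) '' fullSlice c σ i)) = 0 :=
      ae_all_iff.mpr fun J => ae_null_gslice (hG J) hσ (hGV' J) i
    rw [ae_restrict_iff' measurableSet_Icc] at h1
    exact h1
  have hdense : ∀ i, Dense (good i) := fun i => Measure.dense_of_ae (hgd i)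
  have hcd : ∀ i, ∃ T ⊆ good i, T.Countable ∧ Dense T := fun i =>
    (hdense i).exists_countable_dense_subset
  choose T hTg hTc hTd using hcd
  refine ⟨T, hTd, ?_⟩
  rw [ae_all_iff]
  intro i
  rw [ae_ball_iff (hTc i)]
  intro t ht
  rw [ae_all_iff]
  intro J
  by_cases htI : t ∈ Icc (c i - σ) (c i + σ)
  · have h1 := ae_slice_null (hTg i ht htI J)
    filter_upwards [h1] with y hy
    refine measure_mono_null ?_ hy
    rintro _ ⟨x, ⟨hx, hFx, hxt⟩, rfl⟩
    show Fin.append y (fun l => P.avg ν (J l) x) ∈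
      (fun x => ∫ a, Γ' J a x ∂ν) '' ((fun w => slc i t w) '' fullSlice c σ i)
    rw [← hFx, ← hval J x hx]
    refine ⟨x, ⟨_, mem_fullSlice_of_mem hσ (hUc hx) i, ?_⟩, rfl⟩
    simp only
    rw [← hxt]
    exact slc_removeNth i x
  · filter_upwards with y
    have h1 : {x | x ∈ P.U ∧ F x = y ∧ x i = t} = ∅ := by
      ext x
      simp only [mem_ofPred_eq, mem_empty_iff_false, iff_false]
      rintro ⟨hx, -, hxt⟩
      have := mem_closedBall_coord hσ (hUc hx) i
      rw [hxt] at this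
      exact htI this
    rw [h1, image_empty, measure_empty]

end null

end Pool.Agent.Helper83.RK
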